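import Pool.Agent.Lib_helper15.TP.Win

/-!
# MP_892e4c_nt (B*), part T for the path: boxes and directions (helper15)
-/

set_option autoImplicit false

namespace Pool.Agent.TPA

open Finset Pool.Agent.PENT

/-- the closed box `s ([a, 1.01^k a] × [b, 1.01^k b])` -/
def Cx (k : ℕ) (s a b : ℝ) (u : ℤ × ℤ) : Prop :=
  s * a ≤ (u.1 : ℝ) ∧ (u.1 : ℝ) ≤ (101 / 100 : ℝ) ^ k * (s * a) ∧
    s * b ≤ (u.2 : ℝ) ∧ (u.2 : ℝ) ≤ (101 / 100 : ℝ) ^ k * (s * b)

theorem cx_mono {k l : ℕ} (hkl : k ≤ l) {s a b : ℝ} {u : ℤ × ℤ} (hs : 0 ≤ s) (ha : 0 ≤ a)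
    (hb : 0 ≤ b) (h : Cx k s a b u) : Cx l s a b u := by
  obtain ⟨h1, h2, h3, h4⟩ := h
  have h5 : (101 / 100 : ℝ) ^ k ≤ (101 / 100 : ℝ) ^ l := pow_le_pow_right₀ (by norm_num) hkl
  exact ⟨h1, h2.trans (mul_le_mul_of_nonneg_right h5 (by positivity)), h3,
    h4.trans (mul_le_mul_of_nonneg_right h5 (by positivity))⟩

theorem cx_dt {k l : ℕ} (hkl : k + l ≤ 6) {s s' a b a' b' : ℝ} {u v : ℤ × ℤ} (hs : 0 ≤ s)
    (hs' : 0 ≤ s') (ha : 0 ≤ a) (hb : 0 ≤ b) (ha' : 0 ≤ a') (hb' : 0 ≤ b')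
    (hu : Cx k s a b u) (hv : Cx l s' a' b' v) :
    s * s' * (a * b' - 1062 / 1000 * (b * a')) ≤ (dt u v : ℝ) ∧
      (dt u v : ℝ) ≤ s * s' * (1062 / 1000 * (a * b') - b * a') := by
  obtain ⟨h1, h2, h3, h4⟩ := hu
  obtain ⟨g1, g2, g3, g4⟩ := hv
  have h5 : (101 / 100 : ℝ) ^ k * (101 / 100 : ℝ) ^ l ≤ 1062 / 1000 := by
    rw [← pow_add]
    calc (101 / 100 : ℝ) ^ (k + l) ≤ (101 / 100 : ℝ) ^ 6 := pow_le_pow_right₀ (by norm_num) hkl
      _ ≤ _ := by norm_num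
  have z1 : 0 ≤ s * a := by positivity
  have z2 : 0 ≤ s * b := by positivity
  have z3 : 0 ≤ s' * a' := by positivity
  have z4 : 0 ≤ s' * b' := by positivity
  have e4 : (dt u v : ℝ) = (u.1 : ℝ) * v.2 - (u.2 : ℝ) * v.1 := by
    simp only [dt]; push_cast; ring
  have l1 : (s * a) * (s' * b') ≤ (u.1 : ℝ) * v.2 := mul_le_mul h1 g3 z4 (by linarith)
  have l2 : (s * b) * (s' * a') ≤ (u.2 : ℝ) * v.1 := mul_le_mul h3 g1 z3 (by linarith)
  have m1 : (u.1 : ℝ) * v.2 ≤ ((101 / 100 : ℝ) ^ k * (s * a)) * ((101 / 100 : ℝ) ^ l * (s' * b')) :=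
    mul_le_mul h2 g4 (by linarith) (by positivity)
  have m2 : (u.2 : ℝ) * v.1 ≤ ((101 / 100 : ℝ) ^ k * (s * b)) * ((101 / 100 : ℝ) ^ l * (s' * a')) :=
    mul_le_mul h4 g2 (by linarith) (by positivity)
  have n1 : ((101 / 100 : ℝ) ^ k * (s * a)) * ((101 / 100 : ℝ) ^ l * (s' * b')) ≤
      1062 / 1000 * ((s * a) * (s' * b')) := by
    calc _ = ((101 / 100 : ℝ) ^ k * (101 / 100 : ℝ) ^ l) * ((s * a) * (s' * b')) := by ring
      _ ≤ _ := mul_le_mul_of_nonneg_right h5 (by positivity)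
  have n2 : ((101 / 100 : ℝ) ^ k * (s * b)) * ((101 / 100 : ℝ) ^ l * (s' * a')) ≤
      1062 / 1000 * ((s * b) * (s' * a')) := by
    calc _ = ((101 / 100 : ℝ) ^ k * (101 / 100 : ℝ) ^ l) * ((s * b) * (s' * a')) := by ring
      _ ≤ _ := mul_le_mul_of_nonneg_right h5 (by positivity)
  rw [e4]
  constructor <;> nlinarith

/-- the new vector is in its box -/
theorem cx_uu {k : ℕ} {s s' a b a' b' : ℝ} {v w : ℤ × ℤ} (hs : 0 < s) (hs' : 0 < s')
    (ha : 0 ≤ a) (hb : 0 ≤ b) (ha' : 0 ≤ a') (hb' : 0 ≤ b')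
    (hv : Cx k s a b v) (hw : Cx k s' a' b' w) (hΔ : 0 < dt v w) {e f : ℤ} (hi : Int2 v w e f)
    {Z : ℝ} (hZ : 0 < Z)
    (he1 : dt v w * Z / s' ≤ (e : ℝ)) (he2 : (e : ℝ) ≤ 101 / 100 * (dt v w * Z / s'))
    (hf1 : dt v w * Z / s ≤ (f : ℝ)) (hf2 : (f : ℝ) ≤ 101 / 100 * (dt v w * Z / s)) :
    Cx (k + 1) Z (a + a') (b + b') (uu v w e f) := by
  obtain ⟨h1, h2, h3, h4⟩ := hv
  obtain ⟨g1, g2, g3, g4⟩ := hw
  obtain ⟨i1, i2⟩ := uu_spec1 hi
  have hD : (0 : ℝ) < dt v w := by exact_mod_cast hΔ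
  have j1 : (dt v w : ℝ) * (uu v w e f).1 = e * w.1 + f * v.1 := by exact_mod_cast i1
  have j2 : (dt v w : ℝ) * (uu v w e f).2 = e * w.2 + f * v.2 := by exact_mod_cast i2
  have he0 : 0 < dt v w * Z / s' := by positivity
  have hf0 : 0 < dt v w * Z / s := by positivity
  have aux : ∀ (x y m n : ℝ), 0 ≤ m → 0 ≤ n → s' * m ≤ x → x ≤ (101 / 100 : ℝ) ^ k * (s' * m) →
      s * n ≤ y → y ≤ (101 / 100 : ℝ) ^ k * (s * n) →
      dt v w * (Z * (n + m)) ≤ e * x + f * y ∧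
      e * x + f * y ≤ dt v w * ((101 / 100 : ℝ) ^ (k + 1) * (Z * (n + m))) := by
    intro x y m n hm hn hx1 hx2 hy1 hy2
    have hx0 : 0 ≤ s' * m := by positivity
    have hy0 : 0 ≤ s * n := by positivity
    constructor
    · have a1 : (dt v w * Z / s') * (s' * m) ≤ e * x :=
        mul_le_mul he1 hx1 hx0 (by linarith)
      have a2 : (dt v w * Z / s) * (s * n) ≤ f * y :=
        mul_le_mul hf1 hy1 hy0 (by linarith)
      have a3 : (dt v w * Z / s') * (s' * m) + (dt v w * Z / s) * (s * n) =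
          dt v w * (Z * (n + m)) := by field_simp; ring
      linarith
    · have a1 : e * x ≤ (101 / 100 * (dt v w * Z / s')) * ((101 / 100 : ℝ) ^ k * (s' * m)) :=
        mul_le_mul he2 hx2 (by linarith) (by positivity)
      have a2 : f * y ≤ (101 / 100 * (dt v w * Z / s)) * ((101 / 100 : ℝ) ^ k * (s * n)) :=
        mul_le_mul hf2 hy2 (by linarith) (by positivity)
      have a3 : (101 / 100 * (dt v w * Z / s')) * ((101 / 100 : ℝ) ^ k * (s' * m)) +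
          (101 / 100 * (dt v w * Z / s)) * ((101 / 100 : ℝ) ^ k * (s * n)) =
          dt v w * ((101 / 100 : ℝ) ^ (k + 1) * (Z * (n + m))) := by
        rw [pow_succ]; field_simp; ring
      linarith
  obtain ⟨b1, b2⟩ := aux _ _ a' a ha' ha g1 g2 h1 h2
  obtain ⟨b3, b4⟩ := aux _ _ b' b hb' hb g3 g4 h3 h4
  rw [← j1] at b1 b2
  rw [← j2] at b3 b4
  exact ⟨le_of_mul_le_mul_left b1 hD, le_of_mul_le_mul_left b2 hD,
    le_of_mul_le_mul_left b3 hD, le_of_mul_le_mul_left b4 hD⟩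

/-- the directions of the even vertices `v_0, …, v_5` -/
noncomputable def xi (i : ℕ) : ℝ :=
  if i = 0 then 1 else if i = 1 then 4 else if i = 2 then 3 else if i = 3 then 2
  else if i = 4 then 1 else 0

noncomputable def ze (i : ℕ) : ℝ :=
  if i = 0 then 0 else if i = 1 then 1 else if i = 2 then 2 else if i = 3 then 3
  else if i = 4 then 4 else 1

/-- the directions of the vertices `u_0, …, u_10` -/
noncomputable def dx (l : ℕ) : ℝ := if l % 2 = 0 then xi (l / 2) else xi (l / 2) + xi (l / 2 + 1)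

noncomputable def dz (l : ℕ) : ℝ := if l % 2 = 0 then ze (l / 2) else ze (l / 2) + ze (l / 2 + 1)

theorem xi_nonneg (i : ℕ) : 0 ≤ xi i := by
  unfold xi; split_ifs <;> norm_num

theorem ze_nonneg (i : ℕ) : 0 ≤ ze i := by
  unfold ze; split_ifs <;> norm_num

theorem dx_nonneg (l : ℕ) : 0 ≤ dx l := by
  unfold dx; split_ifs
  · exact xi_nonneg _
  · exact add_nonneg (xi_nonneg _) (xi_nonneg _)

theorem dz_nonneg (l : ℕ) : 0 ≤ dz l := by
  unfold dz; split_ifs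
  · exact ze_nonneg _
  · exact add_nonneg (ze_nonneg _) (ze_nonneg _)

/-- the directions are separated -/
theorem dir_sep {l m : ℕ} (hlm : l < m) (hm : m ≤ 10) :
    7 / 10 ≤ dx l * dz m - 1062 / 1000 * (dz l * dx m) := by
  have hl : l < 10 := by omega
  interval_cases m <;> interval_cases l <;> simp [dx, dz, xi, ze] <;> norm_num

theorem dir_sum {l : ℕ} (hl : l ≤ 10) : 1 ≤ dx l + dz l ∧ dx l + dz l ≤ 10 := by
  interval_cases l <;> simp [dx, dz, xi, ze] <;> norm_num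

end Pool.Agent.TPA
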