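import Pool.Agent.Lib_helper15.TP.Box
import Pool.Agent.Lib_helper88.NC.Defs

/-!
# MP_892e4c_nt (B*), (LB): the paths, definitions (helper15)

The even vertices `v_0 = (1,0), v_1, …, v_4, v_5 = (0,1)` (`v_1, …, v_4` tiny), the sequence
`t_0 = d_0, t_1, …, t_8, t_9 = d_9`; the odd vertices `u_(2b+1) = (t_(2b) v_(b+1) + t_(2b+1) v_b) / Δ_b`,
`Δ_b = det(v_b, v_(b+1))`.
-/

set_option autoImplicit false

namespace Pool.Agent.TPA

open Finset Pool.Agent.PENT Pool.Agent.PATH.NC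

/-- the even vertices from the tiny vectors -/
def vx (z : Fin 4 → ℤ × ℤ) (i : ℕ) : ℤ × ℤ :=
  if i = 0 then (1, 0) else if h : i ≤ 4 then z ⟨i - 1, by omega⟩ else (0, 1)

/-- the determinants of consecutive even vertices -/
def De (v : ℕ → ℤ × ℤ) (b : ℕ) : ℤ := dt (v b) (v (b + 1))

/-- admissible tiny vectors: in the boxes, primitive, `Δ_b` prime to the primes `≤ P1`, all
determinants prime to the primes of `S` -/
structure Tin (P1 : ℕ) (S : Finset ℕ) (A : ℕ → ℝ) (v : ℕ → ℤ × ℤ) : Prop where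
  v0 : v 0 = (1, 0)
  v5 : v 5 = (0, 1)
  bx : ∀ i, 1 ≤ i → i ≤ 4 → Cx 1 (A i) (xi i) (ze i) (v i)
  cp : ∀ i, 1 ≤ i → i ≤ 4 → IsCoprime (v i).1 (v i).2
  co : ∀ b, b ≤ 4 → ∀ p : ℕ, p.Prime → p ≤ P1 → ¬ (p : ℤ) ∣ De v b
  av : ∀ p ∈ S, ∀ a b, a < b → b ≤ 5 → ¬ (p : ℤ) ∣ dt (v a) (v b)

open Classical in
/-- the admissible tiny vectors as a finite set -/
noncomputable def TinF (P1 : ℕ) (S : Finset ℕ) (A : ℕ → ℝ) : Finset (Fin 4 → ℤ × ℤ) :=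
  (Fintype.piFinset (fun i : Fin 4 => (Icc (0 : ℤ) ⌈5 * A (i.val + 1)⌉) ×ˢ
    (Icc (0 : ℤ) ⌈5 * A (i.val + 1)⌉))).filter (fun z => Tin P1 S A (vx z))

/-- the vector `a w + b v` -/
def lc (v w : ℤ × ℤ) (a b : ℤ) : ℤ × ℤ := (a * w.1 + b * v.1, a * w.2 + b * v.2)

/-- the value of the form at `u` is prime to the primes `1 mod 4`, `≤ P1` -/
def NI (P1 : ℕ) (q : ℤ × ℤ × ℤ) (u : ℤ × ℤ) : Prop :=
  ∀ l : ℕ, l.Prime → l % 4 = 1 → l ≤ P1 → ¬ (l : ℤ) ∣ fv q u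

/-- the product over the odd primes `≤ P1` of `1 - 1/p` -/
noncomputable def kp (P1 : ℕ) : ℝ := ∏ p ∈ (Icc 3 P1).filter Nat.Prime, (1 - 1 / (p : ℝ))

/-- the product of the odd primes `≤ P1` -/
noncomputable def Ro (P1 : ℕ) : ℕ := ∏ p ∈ (Icc 3 P1).filter Nat.Prime, p

/-- the data of a family of paths -/
structure Dat where
  P : ℝ
  P1 : ℕ
  q : ℤ × ℤ × ℤ
  A : ℕ → ℝ
  Z : ℕ → ℝ
  v : ℕ → ℤ × ℤ
  d0 : ℕ
  d9 : ℕ

namespace Dat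

variable (D : Dat)

/-- the scale of the odd vertex `2b + 1` -/
noncomputable def ZZ (b : ℕ) : ℝ :=
  if b = 0 then D.d0 * D.A 1 / De D.v 0 else if b = 4 then D.d9 * D.A 4 / De D.v 4 else D.Z b

/-- the window of `t_j` -/
noncomputable def win (j : ℕ) : ℝ :=
  De D.v (j / 2) * D.ZZ (j / 2) / D.A (if j % 2 = 0 then j / 2 + 1 else j / 2)

/-- the vertices of the path -/
noncomputable def pv (t : ℕ → ℕ) (l : ℕ) : ℤ × ℤ :=
  if l % 2 = 0 then D.v (l / 2) else uu (D.v (l / 2)) (D.v (l / 2 + 1)) (t (l - 1)) (t l)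

/-- the number to which `t_j` must be prime -/
noncomputable def MM (j : ℕ) (t : ℕ → ℕ) : ℕ :=
  (∏ a ∈ range 6, ∏ b ∈ range 6, if a < b then (dt (D.v a) (D.v b)).natAbs else 1) *
    (∏ l ∈ range j, t l) * D.d9 *
    ∏ a ∈ range 6, ∏ b ∈ range (j / 2), (dt (D.v a) (D.pv t (2 * b + 1))).natAbs

/-- the condition at the closing step `j = 2b + 1`, `b ≤ 3` -/
def Clo (b : ℕ) (t : ℕ → ℕ) (n : ℕ) : Prop :=
  Int2 (D.v b) (D.v (b + 1)) (t (2 * b)) n ∧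
    NI D.P1 D.q (lc (D.v b) (D.v (b + 1)) (t (2 * b)) n) ∧
    (∀ l < 2 * b - 1, Nat.Coprime (t l)
      (dt (D.v ((l + 1) / 2)) (lc (D.v b) (D.v (b + 1)) (t (2 * b)) n)).natAbs) ∧
    Nat.Coprime D.d9 (dt (D.v 5) (lc (D.v b) (D.v (b + 1)) (t (2 * b)) n)).natAbs

/-- the condition at the step `j = 8` -/
def Clo8 (t : ℕ → ℕ) (n : ℕ) : Prop :=
  Int2 (D.v 4) (D.v 5) n D.d9 ∧ NI D.P1 D.q (lc (D.v 4) (D.v 5) n D.d9) ∧
    ∀ l < 7, Nat.Coprime (t l) (dt (D.v ((l + 1) / 2)) (lc (D.v 4) (D.v 5) n D.d9)).natAbs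

open Classical in
/-- the admissible `t_j` -/
noncomputable def SS (j : ℕ) (t : ℕ → ℕ) : Finset ℕ :=
  if j = 0 then {D.d0} else if j = 9 then {D.d9} else
    (Icc 1 ⌊101 / 100 * D.win j⌋₊).filter (fun n => D.win j < (n : ℝ) ∧ DP D.P n ∧
      Nat.Coprime n (D.MM j t) ∧ (j % 2 = 1 → D.Clo (j / 2) t n) ∧ (j = 8 → D.Clo8 t n))

/-- the path as an element of `Vec 10` -/
noncomputable def path (t : ℕ → ℕ) : Vec 10 := fun i => D.pv t i.val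

/-- the hypotheses -/
structure Hyp : Prop where
  P1le : (D.P1 : ℝ) ≤ D.P
  a0 : D.A 0 = 1
  a5 : D.A 5 = 1
  apos : ∀ i, 0 < D.A i
  zpos : ∀ i, 0 < D.Z i
  tin : Tin D.P1 (D.d0 * D.d9).primeFactors D.A D.v
  e0 : DP D.P D.d0
  e9 : DP D.P D.d9
  e09 : Nat.Coprime D.d0 D.d9

end Dat

end Pool.Agent.TPA
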