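import Pool.Agent.Lib_helper15.TP.Defs

/-!
# MP_892e4c_nt (B*), (LB): facts about the paths (helper15)
-/

set_option autoImplicit false

namespace Pool.Agent.TPA

open Finset Pool.Agent.PENT Pool.Agent.PATH.NC

namespace Dat

variable {D : Dat}

theorem Hyp.bx (h : D.Hyp) {i : ℕ} (hi : i ≤ 5) : Cx 1 (D.A i) (xi i) (ze i) (D.v i) := by
  rcases Nat.eq_zero_or_pos i with rfl | h0
  · rw [h.tin.v0, h.a0]
    refine ⟨?_, ?_, ?_, ?_⟩ <;> simp [xi, ze] <;> norm_num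
  · rcases Nat.eq_or_lt_of_le hi with rfl | h5
    · rw [h.tin.v5, h.a5]
      refine ⟨?_, ?_, ?_, ?_⟩ <;> simp [xi, ze] <;> norm_num
    · exact h.tin.bx i h0 (by omega)

/-- the determinants of the even vertices -/
theorem Hyp.dtv (h : D.Hyp) {a b : ℕ} (hab : a < b) (hb : b ≤ 5) :
    7 / 10 * (D.A a * D.A b) ≤ (dt (D.v a) (D.v b) : ℝ) ∧
      (dt (D.v a) (D.v b) : ℝ) ≤ 17 * (D.A a * D.A b) ∧ 0 < dt (D.v a) (D.v b) := by
  have h1 := cx_dt (k := 1) (l := 1) (by norm_num) (h.apos a).le (h.apos b).le (xi_nonneg a)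
    (ze_nonneg a) (xi_nonneg b) (ze_nonneg b) (h.bx (by omega)) (h.bx hb)
  have h2 := dir_sep (l := 2 * a) (m := 2 * b) (by omega) (by omega)
  have e1 : dx (2 * a) = xi a := by
    unfold dx; rw [if_pos (by omega), Nat.mul_div_cancel_left _ (by norm_num)]
  have e2 : dz (2 * b) = ze b := by
    unfold dz; rw [if_pos (by omega), Nat.mul_div_cancel_left _ (by norm_num)]
  have e3 : dz (2 * a) = ze a := by
    unfold dz; rw [if_pos (by omega), Nat.mul_div_cancel_left _ (by norm_num)]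
  have e4 : dx (2 * b) = xi b := by
    unfold dx; rw [if_pos (by omega), Nat.mul_div_cancel_left _ (by norm_num)]
  rw [e1, e2, e3, e4] at h2
  have hA : 0 < D.A a * D.A b := mul_pos (h.apos a) (h.apos b)
  have x4 : xi a ≤ 4 := by unfold xi; split_ifs <;> norm_num
  have z4 : ze b ≤ 4 := by unfold ze; split_ifs <;> norm_num
  have xz : xi a * ze b ≤ 16 := by
    have := mul_le_mul x4 z4 (ze_nonneg b) (by norm_num)
    linarith
  have yz : 0 ≤ ze a * xi b := mul_nonneg (ze_nonneg a) (xi_nonneg b)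
  have l1 : 7 / 10 * (D.A a * D.A b) ≤ (dt (D.v a) (D.v b) : ℝ) := by
    refine le_trans ?_ h1.1
    nlinarith
  refine ⟨l1, ?_, ?_⟩
  · refine h1.2.trans ?_
    nlinarith
  · have : (0 : ℝ) < dt (D.v a) (D.v b) := by linarith
    exact_mod_cast this

theorem Hyp.De_pos (h : D.Hyp) {b : ℕ} (hb : b ≤ 4) : 0 < De D.v b :=
  (h.dtv (Nat.lt_succ_self b) (by omega)).2.2

theorem Hyp.De_bd (h : D.Hyp) {b : ℕ} (hb : b ≤ 4) :
    7 / 10 * (D.A b * D.A (b + 1)) ≤ (De D.v b : ℝ) ∧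
      (De D.v b : ℝ) ≤ 17 * (D.A b * D.A (b + 1)) :=
  ⟨(h.dtv (Nat.lt_succ_self b) (by omega)).1, (h.dtv (Nat.lt_succ_self b) (by omega)).2.1⟩

theorem Hyp.d0_pos (h : D.Hyp) : 0 < D.d0 := dp_pos h.e0

theorem Hyp.d9_pos (h : D.Hyp) : 0 < D.d9 := dp_pos h.e9

theorem Hyp.ZZ_pos (h : D.Hyp) (b : ℕ) : 0 < D.ZZ b := by
  have h0 : (0 : ℝ) < De D.v 0 := by exact_mod_cast h.De_pos (by norm_num : 0 ≤ 4)
  have h4 : (0 : ℝ) < De D.v 4 := by exact_mod_cast h.De_pos (by norm_num : 4 ≤ 4)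
  have d0 : (0 : ℝ) < D.d0 := by exact_mod_cast h.d0_pos
  have d9 : (0 : ℝ) < D.d9 := by exact_mod_cast h.d9_pos
  have a1 := h.apos 1
  have a4 := h.apos 4
  have z := h.zpos b
  unfold ZZ
  split_ifs <;> positivity

theorem Hyp.win_pos (h : D.Hyp) {j : ℕ} (hj : j ≤ 9) : 0 < D.win j := by
  have h0 : (0 : ℝ) < De D.v (j / 2) := by exact_mod_cast h.De_pos (by omega : j / 2 ≤ 4)
  have h1 := h.ZZ_pos (j / 2)
  have h2 := h.apos (if j % 2 = 0 then j / 2 + 1 else j / 2)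
  unfold win
  positivity

theorem Hyp.win0 (h : D.Hyp) : D.win 0 = D.d0 := by
  have h0 : (0 : ℝ) < De D.v 0 := by exact_mod_cast h.De_pos (by norm_num : 0 ≤ 4)
  have h1 := h.apos 1
  have e : D.win 0 = De D.v 0 * (D.d0 * D.A 1 / De D.v 0) / D.A 1 := rfl
  rw [e]
  field_simp

theorem Hyp.win9 (h : D.Hyp) : D.win 9 = D.d9 := by
  have h0 : (0 : ℝ) < De D.v 4 := by exact_mod_cast h.De_pos (by norm_num : 4 ≤ 4)
  have h1 := h.apos 4
  have e : D.win 9 = De D.v 4 * (D.d9 * D.A 4 / De D.v 4) / D.A 4 := rfl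
  rw [e]
  field_simp

theorem mem_SS {j : ℕ} (h0 : j ≠ 0) (h9 : j ≠ 9) {t : ℕ → ℕ} {n : ℕ} (hw : 0 ≤ D.win j) :
    n ∈ D.SS j t ↔ D.win j < (n : ℝ) ∧ (n : ℝ) ≤ 101 / 100 * D.win j ∧ DP D.P n ∧
      Nat.Coprime n (D.MM j t) ∧ (j % 2 = 1 → D.Clo (j / 2) t n) ∧ (j = 8 → D.Clo8 t n) := by
  classical
  unfold SS
  rw [if_neg h0, if_neg h9, Finset.mem_filter, Finset.mem_Icc]
  have hw' : 0 ≤ 101 / 100 * D.win j := by positivity
  constructor
  · rintro ⟨⟨h1, h2⟩, h3, h4⟩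
    exact ⟨h3, (Nat.le_floor_iff hw').1 h2, h4⟩
  · rintro ⟨h3, h2, h4⟩
    refine ⟨⟨?_, (Nat.le_floor_iff hw').2 h2⟩, h3, h4⟩
    have : (0 : ℝ) < n := lt_of_le_of_lt hw h3
    exact_mod_cast this

/-- the facts about the first `m` entries -/
structure PF (D : Dat) (m : ℕ) (t : ℕ → ℕ) : Prop where
  win : ∀ j < m, D.win j ≤ (t j : ℝ) ∧ (t j : ℝ) ≤ 101 / 100 * D.win j
  dp : ∀ j < m, DP D.P (t j)
  t0 : 0 < m → t 0 = D.d0
  t9 : 9 < m → t 9 = D.d9
  cv : ∀ j < m, ∀ a b, a < b → b ≤ 5 → Nat.Coprime (t j) (dt (D.v a) (D.v b)).natAbs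
  ct : ∀ i j, i < j → j < m → Nat.Coprime (t i) (t j)
  c9 : ∀ j < m, j < 9 → Nat.Coprime (t j) D.d9
  od : ∀ j < m, j < 9 → ∀ a, a ≤ 5 → ∀ b, b < j / 2 →
    Nat.Coprime (t j) (dt (D.v a) (D.pv t (2 * b + 1))).natAbs
  clo : ∀ b, b ≤ 3 → 2 * b + 1 < m → D.Clo b t (t (2 * b + 1))
  clo8 : 8 < m → D.Clo8 t (t 8)

theorem dvd_MM1 {j a b : ℕ} (t : ℕ → ℕ) (hab : a < b) (hb : b ≤ 5) :
    (dt (D.v a) (D.v b)).natAbs ∣ D.MM j t := by
  unfold MM
  refine Dvd.dvd.mul_right (Dvd.dvd.mul_right (Dvd.dvd.mul_right ?_ _) _) _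
  have h1 : (if a < b then (dt (D.v a) (D.v b)).natAbs else 1) ∣
      ∏ b' ∈ range 6, (if a < b' then (dt (D.v a) (D.v b')).natAbs else 1) :=
    Finset.dvd_prod_of_mem (fun b' => if a < b' then (dt (D.v a) (D.v b')).natAbs else 1)
      (Finset.mem_range.2 (by omega))
  rw [if_pos hab] at h1
  exact h1.trans (Finset.dvd_prod_of_mem
    (fun a' => ∏ b' ∈ range 6, (if a' < b' then (dt (D.v a') (D.v b')).natAbs else 1))
    (Finset.mem_range.2 (by omega)))

theorem dvd_MM2 {j i : ℕ} (t : ℕ → ℕ) (hij : i < j) : t i ∣ D.MM j t := by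
  unfold MM
  refine Dvd.dvd.mul_right (Dvd.dvd.mul_right (Dvd.dvd.mul_left ?_ _) _) _
  exact Finset.dvd_prod_of_mem _ (Finset.mem_range.2 hij)

theorem dvd_MM3 (j : ℕ) (t : ℕ → ℕ) : D.d9 ∣ D.MM j t := by
  unfold MM
  exact Dvd.dvd.mul_right (dvd_mul_left _ _) _

theorem dvd_MM4 {j a b : ℕ} (t : ℕ → ℕ) (ha : a ≤ 5) (hb : b < j / 2) :
    (dt (D.v a) (D.pv t (2 * b + 1))).natAbs ∣ D.MM j t := by
  unfold MM
  refine Dvd.dvd.mul_left ?_ _
  have h1 : (dt (D.v a) (D.pv t (2 * b + 1))).natAbs ∣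
      ∏ b' ∈ range (j / 2), (dt (D.v a) (D.pv t (2 * b' + 1))).natAbs :=
    Finset.dvd_prod_of_mem (fun b' => (dt (D.v a) (D.pv t (2 * b' + 1))).natAbs)
      (Finset.mem_range.2 hb)
  exact h1.trans (Finset.dvd_prod_of_mem
    (fun a' => ∏ b' ∈ range (j / 2), (dt (D.v a') (D.pv t (2 * b' + 1))).natAbs)
    (Finset.mem_range.2 (by omega)))

theorem cop_of_tin (h : D.Hyp) {d : ℕ} (hd : d ∣ D.d0 * D.d9) {a b : ℕ} (hab : a < b)
    (hb : b ≤ 5) : Nat.Coprime d (dt (D.v a) (D.v b)).natAbs := by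
  rw [Nat.coprime_iff_gcd_eq_one]
  by_contra hne
  obtain ⟨p, hp, hpd⟩ := Nat.exists_prime_and_dvd hne
  have h1 : p ∣ D.d0 * D.d9 := (hpd.trans (Nat.gcd_dvd_left _ _)).trans hd
  have h2 : p ∣ (dt (D.v a) (D.v b)).natAbs := hpd.trans (Nat.gcd_dvd_right _ _)
  refine h.tin.av p ?_ a b hab hb (Int.natCast_dvd.2 h2)
  exact Nat.mem_primeFactors.2 ⟨hp, h1,
    mul_ne_zero h.d0_pos.ne' h.d9_pos.ne'⟩

/-- the facts from the membership -/
theorem pf_of_mem (h : D.Hyp) {m : ℕ} (hm : m ≤ 10) {t : ℕ → ℕ} (ht : ∀ j < m, t j ∈ D.SS j t) :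
    PF D m t := by
  have key : ∀ j < m, j ≠ 0 → j ≠ 9 → D.win j < (t j : ℝ) ∧ (t j : ℝ) ≤ 101 / 100 * D.win j ∧
      DP D.P (t j) ∧ Nat.Coprime (t j) (D.MM j t) ∧ (j % 2 = 1 → D.Clo (j / 2) t (t j)) ∧
      (j = 8 → D.Clo8 t (t j)) := by
    intro j hj h0 h9
    exact (mem_SS h0 h9 (h.win_pos (by omega)).le).1 (ht j hj)
  have k0 : 0 < m → t 0 = D.d0 := by
    intro h0
    have := ht 0 h0
    unfold SS at this
    rw [if_pos rfl] at this
    exact Finset.mem_singleton.1 this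
  have k9 : 9 < m → t 9 = D.d9 := by
    intro h0
    have := ht 9 h0
    unfold SS at this
    rw [if_neg (by norm_num), if_pos rfl] at this
    exact Finset.mem_singleton.1 this
  refine ⟨?_, ?_, k0, k9, ?_, ?_, ?_, ?_, ?_, ?_⟩
  · intro j hj
    rcases Nat.eq_zero_or_pos j with rfl | h0
    · rw [k0 hj, h.win0]
      have : (0 : ℝ) < D.d0 := by exact_mod_cast h.d0_pos
      constructor
      · exact le_rfl
      · linarith
    · by_cases h9 : j = 9
      · subst h9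
        rw [k9 hj, h.win9]
        have : (0 : ℝ) < D.d9 := by exact_mod_cast h.d9_pos
        constructor
        · exact le_rfl
        · linarith
      · obtain ⟨a, b, -⟩ := key j hj h0.ne' h9
        exact ⟨a.le, b⟩
  · intro j hj
    rcases Nat.eq_zero_or_pos j with rfl | h0
    · rw [k0 hj]; exact h.e0
    · by_cases h9 : j = 9
      · subst h9
        rw [k9 hj]; exact h.e9
      · exact (key j hj h0.ne' h9).2.2.1
  · intro j hj a b hab hb
    rcases Nat.eq_zero_or_pos j with rfl | h0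
    · rw [k0 hj]
      exact cop_of_tin h (dvd_mul_right _ _) hab hb
    · by_cases h9 : j = 9
      · subst h9
        rw [k9 hj]
        exact cop_of_tin h (dvd_mul_left _ _) hab hb
      · exact Nat.Coprime.coprime_dvd_right (dvd_MM1 t hab hb) (key j hj h0.ne' h9).2.2.2.1
  · intro i j hij hj
    by_cases h9 : j = 9
    · subst h9
      rw [k9 hj]
      rcases Nat.eq_zero_or_pos i with rfl | h0
      · rw [k0 (by omega)]; exact h.e09
      · exact Nat.Coprime.coprime_dvd_right (dvd_MM3 i t)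
          (key i (by omega) h0.ne' (by omega)).2.2.2.1
    · exact (Nat.Coprime.coprime_dvd_right (dvd_MM2 t hij)
        (key j hj (by omega) h9).2.2.2.1).symm
  · intro j hj h9
    rcases Nat.eq_zero_or_pos j with rfl | h0
    · rw [k0 (by omega)]; exact h.e09
    · exact Nat.Coprime.coprime_dvd_right (dvd_MM3 j t) (key j hj h0.ne' (by omega)).2.2.2.1
  · intro j hj h9 a ha b hb
    exact Nat.Coprime.coprime_dvd_right (dvd_MM4 t ha hb)
      (key j hj (by omega) (by omega)).2.2.2.1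
  · intro b hb hbm
    have := (key (2 * b + 1) hbm (by omega) (by omega)).2.2.2.2.1 (by omega)
    rwa [show (2 * b + 1) / 2 = b by omega] at this
  · intro h8
    exact (key 8 h8 (by norm_num) (by norm_num)).2.2.2.2.2 rfl

theorem PF.pos {m : ℕ} {t : ℕ → ℕ} (hp : PF D m t) {j : ℕ} (hj : j < m) : 0 < t j :=
  dp_pos (hp.dp j hj)

/-- integrality of the odd vertices -/
theorem PF.int {m : ℕ} {t : ℕ → ℕ} (hp : PF D m t) {b : ℕ} (hb : b ≤ 4) (hbm : 2 * b + 1 < m) :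
    Int2 (D.v b) (D.v (b + 1)) (t (2 * b)) (t (2 * b + 1)) := by
  by_cases h4 : b = 4
  · subst h4
    have h1 := (hp.clo8 (by omega)).1
    have h2 := hp.t9 (by omega)
    show Int2 (D.v 4) (D.v 5) ((t 8 : ℕ) : ℤ) ((t 9 : ℕ) : ℤ)
    rw [h2]
    exact h1
  · exact (hp.clo b (by omega) hbm).1

/-- the scale of the vertex `l` -/
noncomputable def sc (D : Dat) (l : ℕ) : ℝ := if l % 2 = 0 then D.A (l / 2) else D.ZZ (l / 2)

theorem Hyp.sc_pos (h : D.Hyp) (l : ℕ) : 0 < D.sc l := by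
  unfold sc; split_ifs
  · exact h.apos _
  · exact h.ZZ_pos _

theorem pv_even (t : ℕ → ℕ) (b : ℕ) : D.pv t (2 * b) = D.v b := by
  unfold pv
  rw [if_pos (by omega), Nat.mul_div_cancel_left _ (by norm_num)]

theorem pv_odd (t : ℕ → ℕ) (b : ℕ) :
    D.pv t (2 * b + 1) = uu (D.v b) (D.v (b + 1)) (t (2 * b)) (t (2 * b + 1)) := by
  unfold pv
  rw [if_neg (by omega)]
  have e1 : (2 * b + 1) / 2 = b := by omega
  have e2 : 2 * b + 1 - 1 = 2 * b := by omega
  rw [e1, e2]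

/-- the boxes of the vertices -/
theorem PF.box (h : D.Hyp) {m : ℕ} {t : ℕ → ℕ} (hp : PF D m t) {l : ℕ} (hl : l ≤ 10)
    (hlm : l % 2 = 1 → l < m) : Cx 2 (D.sc l) (dx l) (dz l) (D.pv t l) := by
  rcases Nat.even_or_odd' l with ⟨b, rfl | rfl⟩
  · have e1 : dx (2 * b) = xi b := by
      unfold dx; rw [if_pos (by omega), Nat.mul_div_cancel_left _ (by norm_num)]
    have e2 : dz (2 * b) = ze b := by
      unfold dz; rw [if_pos (by omega), Nat.mul_div_cancel_left _ (by norm_num)]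
    have e3 : D.sc (2 * b) = D.A b := by
      unfold sc; rw [if_pos (by omega), Nat.mul_div_cancel_left _ (by norm_num)]
    rw [e1, e2, e3, pv_even]
    exact cx_mono (by norm_num) (h.apos b).le (xi_nonneg b) (ze_nonneg b) (h.bx (by omega))
  · have e0 : (2 * b + 1) / 2 = b := by omega
    have e1 : dx (2 * b + 1) = xi b + xi (b + 1) := by
      unfold dx; rw [if_neg (by omega), e0]
    have e2 : dz (2 * b + 1) = ze b + ze (b + 1) := by
      unfold dz; rw [if_neg (by omega), e0]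
    have e3 : D.sc (2 * b + 1) = D.ZZ b := by
      unfold sc; rw [if_neg (by omega), e0]
    rw [e1, e2, e3, pv_odd]
    have hb : b ≤ 4 := by omega
    have hbm : 2 * b + 1 < m := hlm (by omega)
    have w1 := hp.win (2 * b) (by omega)
    have w2 := hp.win (2 * b + 1) hbm
    have f1 : D.win (2 * b) = De D.v b * D.ZZ b / D.A (b + 1) := by
      unfold Dat.win; rw [if_pos (by omega), Nat.mul_div_cancel_left _ (by norm_num)]
    have f2 : D.win (2 * b + 1) = De D.v b * D.ZZ b / D.A b := by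
      unfold Dat.win; rw [if_neg (by omega), e0]
    rw [f1] at w1
    rw [f2] at w2
    have hD := h.De_pos hb
    unfold De at w1 w2 hD
    exact cx_uu (k := 1) (h.apos b) (h.apos (b + 1)) (xi_nonneg b) (ze_nonneg b)
      (xi_nonneg (b + 1)) (ze_nonneg (b + 1)) (h.bx (by omega)) (h.bx (by omega)) hD
      (hp.int hb hbm) (h.ZZ_pos b) (by exact_mod_cast w1.1) (by exact_mod_cast w1.2)
      (by exact_mod_cast w2.1) (by exact_mod_cast w2.2)

/-- the determinants of all pairs of vertices -/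
theorem PF.dts (h : D.Hyp) {m : ℕ} {t : ℕ → ℕ} (hp : PF D m t) {l l' : ℕ} (hll : l < l')
    (hl : l' ≤ 10) (hlm : l % 2 = 1 → l < m) (hlm' : l' % 2 = 1 → l' < m) :
    7 / 10 * (D.sc l * D.sc l') ≤ (dt (D.pv t l) (D.pv t l') : ℝ) ∧
      (dt (D.pv t l) (D.pv t l') : ℝ) ≤ 60 * (D.sc l * D.sc l') ∧
      0 < dt (D.pv t l) (D.pv t l') := by
  have h1 := cx_dt (k := 2) (l := 2) (by norm_num) (h.sc_pos l).le (h.sc_pos l').le (dx_nonneg l)
    (dz_nonneg l) (dx_nonneg l') (dz_nonneg l') (hp.box h (by omega) hlm) (hp.box h hl hlm')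
  have h2 := dir_sep hll hl
  have hS : 0 < D.sc l * D.sc l' := mul_pos (h.sc_pos l) (h.sc_pos l')
  have x1 : ∀ i, xi i ≤ 4 := fun i => by unfold xi; split_ifs <;> norm_num
  have z1 : ∀ i, ze i ≤ 4 := fun i => by unfold ze; split_ifs <;> norm_num
  have x7 : dx l ≤ 7 := by
    have : l < 10 := by omega
    interval_cases l <;> simp [dx, xi] <;> norm_num
  have z7 : dz l' ≤ 7 := by
    interval_cases l' <;> simp [dz, ze] <;> norm_num
  have xz : dx l * dz l' ≤ 49 := by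
    have := mul_le_mul x7 z7 (dz_nonneg l') (by norm_num)
    linarith
  have yz : 0 ≤ dz l * dx l' := mul_nonneg (dz_nonneg l) (dx_nonneg l')
  have l1 : 7 / 10 * (D.sc l * D.sc l') ≤ (dt (D.pv t l) (D.pv t l') : ℝ) := by
    refine le_trans ?_ h1.1
    nlinarith
  refine ⟨l1, ?_, ?_⟩
  · refine h1.2.trans ?_
    nlinarith
  · have : (0 : ℝ) < dt (D.pv t l) (D.pv t l') := by linarith
    exact_mod_cast this

/-- the determinants of the edges -/
theorem PF.edge (h : D.Hyp) {m : ℕ} {t : ℕ → ℕ} (hp : PF D m t) {j : ℕ} (hj : j ≤ 9)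
    (hjm : 2 * (j / 2) + 1 < m) : dt (D.pv t j) (D.pv t (j + 1)) = t j := by
  rcases Nat.even_or_odd' j with ⟨b, rfl | rfl⟩
  · have hbm : 2 * b + 1 < m := by omega
    rw [pv_even, pv_odd]
    exact (uu_dt (hp.int (by omega) hbm) (h.De_pos (by omega : b ≤ 4)).ne').1
  · have hbm : 2 * b + 1 < m := by omega
    rw [show 2 * b + 1 + 1 = 2 * (b + 1) by ring, pv_even, pv_odd]
    exact (uu_dt (hp.int (by omega) hbm) (h.De_pos (by omega : b ≤ 4)).ne').2

/-- `lc` is `Δ_b` times the odd vertex -/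
theorem PF.lc_eq {m : ℕ} {t : ℕ → ℕ} (hp : PF D m t) {b : ℕ} (hb : b ≤ 4)
    (hbm : 2 * b + 1 < m) :
    lc (D.v b) (D.v (b + 1)) (t (2 * b)) (t (2 * b + 1)) =
      (De D.v b * (D.pv t (2 * b + 1)).1, De D.v b * (D.pv t (2 * b + 1)).2) := by
  obtain ⟨h1, h2⟩ := uu_spec1 (hp.int hb hbm)
  rw [pv_odd]
  unfold lc De
  rw [h1, h2]

end Dat

end Pool.Agent.TPA
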