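import Pool.Agent.Lib_helper15.PENT.TZ
import Pool.Agent.Lib_helper15.PENT.TFacts
import Pool.Agent.Lib_helper15.PENT.TSum

/-!
# MP_892e4c_nt (B*), part T for the path: sums in windows, general `P` (helper15)
-/

set_option autoImplicit false

namespace Pool.Agent.TPA

open Finset Filter Pool.Agent.PENT

/-- the range of `P` -/
structure PX (X : ℕ) (P : ℝ) : Prop where
  lo : Real.log X ^ 20 ≤ P
  hi : Real.log P ≤ Real.log X ^ (1 / 4 : ℝ)

/-- the conditions for large `X` -/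
theorem tp_large (δ D₀ : ℝ) (hδ : 0 < δ) : ∃ X₀ : ℕ, ∀ X ≥ X₀, ∀ P : ℝ, PX X P → ∀ D : ℝ,
    (X : ℝ) ^ δ ≤ D → D ≤ X → D₀ ≤ D ∧ 1 ≤ D ∧ 0 < Real.log D ∧ Real.log D ≤ Real.log X ∧
      δ * Real.log X ≤ Real.log D ∧ Real.log D ^ 20 ≤ P ∧
      Real.log P ≤ Real.log D ^ (1 / 2 : ℝ) ∧ 100 * Real.log X ≤ Real.log D ^ 2 := by
  have t1 : Tendsto (fun X : ℕ => Real.log (X : ℝ)) atTop atTop :=
    Real.tendsto_log_atTop.comp tendsto_natCast_atTop_atTop
  have t2 : Tendsto (fun X : ℕ => (X : ℝ) ^ δ) atTop atTop :=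
    (tendsto_rpow_atTop hδ).comp tendsto_natCast_atTop_atTop
  have t5 : Tendsto (fun X : ℕ => Real.log (X : ℝ) ^ (1 / 4 : ℝ)) atTop atTop :=
    (tendsto_rpow_atTop (by norm_num)).comp t1
  have e1 := t1.eventually_ge_atTop (100 / δ ^ 2 + 1)
  have e2 := t2.eventually_ge_atTop (max D₀ 1 + 1)
  have e5 := t5.eventually_ge_atTop ((δ ^ (1 / 2 : ℝ))⁻¹)
  have e6 := (tendsto_natCast_atTop_atTop (R := ℝ)).eventually_ge_atTop 3
  obtain ⟨X₀, hX₀⟩ := eventually_atTop.1 (e1.and (e2.and (e5.and e6)))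
  refine ⟨X₀, fun X hX P hP D hD1 hD2 => ?_⟩
  obtain ⟨a1, a2, a5, a6⟩ := hX₀ X hX
  have hX0 : (0 : ℝ) < X := by linarith
  have h1 : D₀ ≤ D := by
    have := le_max_left D₀ 1
    linarith
  have h2 : 1 < D := by
    have := le_max_right D₀ 1
    linarith
  have hlD : 0 < Real.log D := Real.log_pos h2
  have hlDX : Real.log D ≤ Real.log X := Real.log_le_log (by linarith) hD2
  have hlX : 0 < Real.log X := by linarith
  have h3 : δ * Real.log X ≤ Real.log D := by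
    rw [← Real.log_rpow hX0]
    exact Real.log_le_log (Real.rpow_pos_of_pos hX0 _) hD1
  refine ⟨h1, h2.le, hlD, hlDX, h3, ?_, ?_, ?_⟩
  · exact (pow_le_pow_left₀ hlD.le hlDX 20).trans hP.lo
  · refine hP.hi.trans ?_
    calc Real.log X ^ (1 / 4 : ℝ) = Real.log X ^ (1 / 4 : ℝ) * 1 := by ring
      _ ≤ Real.log X ^ (1 / 4 : ℝ) * (δ ^ (1 / 2 : ℝ) * Real.log X ^ (1 / 4 : ℝ)) := by
          apply mul_le_mul_of_nonneg_left _ (Real.rpow_nonneg hlX.le _)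
          have hd : 0 < δ ^ (1 / 2 : ℝ) := Real.rpow_pos_of_pos hδ _
          calc (1 : ℝ) = δ ^ (1 / 2 : ℝ) * (δ ^ (1 / 2 : ℝ))⁻¹ := by
                rw [mul_inv_cancel₀ hd.ne']
            _ ≤ _ := mul_le_mul_of_nonneg_left a5 hd.le
      _ = δ ^ (1 / 2 : ℝ) * Real.log X ^ (1 / 2 : ℝ) := by
          rw [mul_left_comm, ← Real.rpow_add hlX]; norm_num
      _ = (δ * Real.log X) ^ (1 / 2 : ℝ) := by rw [Real.mul_rpow hδ.le hlX.le]
      _ ≤ Real.log D ^ (1 / 2 : ℝ) :=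
          Real.rpow_le_rpow (by positivity) h3 (by norm_num)
  · have h4 : (δ * Real.log X) ^ 2 ≤ Real.log D ^ 2 :=
      pow_le_pow_left₀ (by positivity) h3 2
    have h5 : 100 ≤ δ ^ 2 * Real.log X := by
      have : 100 / δ ^ 2 ≤ Real.log X := by linarith
      rw [div_le_iff₀ (by positivity)] at this
      linarith
    nlinarith

/-- the density of `fw P α` -/
noncomputable def ell (X : ℕ) (P α : ℝ) : ℝ := Real.log P ^ (-α) * Real.log X ^ (α - 1)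

/-- the sums in windows: `δ`: the size of the window, modulus up to `X ^ (δ τ)` -/
def ZQ (α δ τ c : ℝ) (X₀ : ℕ) : Prop :=
  ∀ X ≥ X₀, ∀ P : ℝ, PX X P → ∀ (D : ℝ) (q : ℕ) (r : ℤ) (F : Finset (ℕ × ℤ)),
      (X : ℝ) ^ δ ≤ D → D ≤ X → Odd q →
      (q : ℝ) ≤ (X : ℝ) ^ (δ * τ) → IsCoprime r (q : ℤ) →
      (∀ a ∈ F, a.1.Prime ∧ P < (a.1 : ℝ) ∧ ¬ a.1 ∣ q) →
      (F.card : ℝ) ≤ 100 * Real.log X →
      c * ell X P α * (q.totient / (q : ℝ) ^ 2) ≤ ∑ n ∈ PD D P q r F, fw P α n / n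

theorem zq_of {α : ℝ} (hα : 0 < α) (hα1 : α ≤ 1) :
    ∃ τ : ℝ, 0 < τ ∧ ∀ δ : ℝ, 0 < δ → ∃ c : ℝ, 0 < c ∧ ∃ X₀ : ℕ, ZQ α δ τ c X₀ := by
  obtain ⟨c, τ, D₀, hc, hτ, H⟩ := zss (θ := 1 / 100) (by norm_num) (by norm_num) α hα hα1
  refine ⟨τ, hτ, fun δ hδ => ?_⟩
  obtain ⟨X₀, hX₀⟩ := tp_large δ D₀ hδ
  refine ⟨c / 2, by positivity, max X₀ 3, fun X hX P hP D q r F hD1 hD2 hq hqX hr hF hFc => ?_⟩
  obtain ⟨g1, g2, g3, g4, g5, g6, g7, g8⟩ :=
    hX₀ X (le_trans (le_max_left _ _) hX) P hP D hD1 hD2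
  have hX0 : (0 : ℝ) < X := by
    have : 3 ≤ X := le_trans (le_max_right _ _) hX
    exact_mod_cast (by omega : 0 < X)
  have hD0 : 0 < D := by linarith
  have hlX : 0 < Real.log X := by linarith
  have hq0 : (0 : ℝ) < q := by
    rcases hq with ⟨k, hk⟩
    exact_mod_cast (by omega : 0 < q)
  have hqD : (q : ℝ) ≤ D ^ τ := by
    refine hqX.trans ?_
    rw [Real.rpow_mul hX0.le]
    exact Real.rpow_le_rpow (Real.rpow_nonneg hX0.le _) hD1 hτ.le
  have h1 := H D P q r F g1 g6 g7 hq hqD hr hF (hFc.trans g8)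
  rw [pd_sum]
  have h2 : ∑ n ∈ Pset (1 / 100) D q r F, fw P α n / (2 * D) ≤
      ∑ n ∈ Pset (1 / 100) D q r F, fw P α n / n := by
    apply Finset.sum_le_sum
    intro n hn
    rw [mem_Pset hD0.le (by norm_num)] at hn
    have hn0 : (0 : ℝ) < n := by linarith [hn.1]
    apply div_le_div_of_nonneg_left _ hn0
    · nlinarith [hn.2.1]
    · unfold fw
      split_ifs
      · positivity
      · exact le_rfl
  refine le_trans ?_ h2
  rw [← Finset.sum_div, le_div_iff₀ (by positivity)]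
  refine le_trans ?_ h1
  have hlogP : 0 ≤ Real.log P := by
    have h20 : 1 ≤ P := by
      -- `log X ≥ 1` is not needed: `P ≥ (log X)^20 > 0`; use `log D ^ 20 ≤ P`
      by_contra hne
      push Not at hne
      have hlog : Real.log X ^ 20 < 1 := lt_of_le_of_lt hP.lo hne
      have h8 : 100 * Real.log X ≤ Real.log X ^ 2 :=
        g8.trans (pow_le_pow_left₀ g3.le g4 2)
      have h9 : 100 ≤ Real.log X := by nlinarith
      have h10 : (1 : ℝ) ≤ Real.log X ^ 20 := one_le_pow₀ (by linarith)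
      linarith
    exact Real.log_nonneg h20
  have h3 : Real.log X ^ (α - 1) ≤ Real.log D ^ (α - 1) :=
    Real.rpow_le_rpow_of_nonpos g3 g4 (by linarith)
  unfold ell
  have h5 : 0 ≤ Real.log P ^ (-α) := Real.rpow_nonneg hlogP _
  have h6 : 0 ≤ c * (D / q * (q.totient / q)) := by positivity
  calc c / 2 * (Real.log P ^ (-α) * Real.log X ^ (α - 1)) *
        (q.totient / (q : ℝ) ^ 2) * (2 * D)
      = c * (D / q * (q.totient / q)) * Real.log P ^ (-α) * Real.log X ^ (α - 1) := by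
        field_simp
    _ ≤ _ := mul_le_mul_of_nonneg_left h3 (mul_nonneg h6 h5)

end Pool.Agent.TPA
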